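import Mathlib

/-!
# Machines and their contractions
-/

set_option autoImplicit false

namespace Pool.Agent.H1.BP

open Finset

variable {G H : Type*}

/-- One step of a machine: in the state `g` the bit `T g` is read and the machine goes to the
state or the answer `nxt g (T g)`; answers are kept. -/
def step (T : G → Bool) (nxt : G → Bool → G ⊕ Bool) : G ⊕ Bool → G ⊕ Bool
  | Sum.inl g => nxt g (T g)
  | Sum.inr b => Sum.inr b

/-- The machine started in `q` reaches the answer `true`. -/
def Accepts (T : G → Bool) (nxt : G → Bool → G ⊕ Bool) (q : G ⊕ Bool) : Prop :=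
  ∃ n, (step T nxt)^[n] q = Sum.inr true

theorem step_inr (T : G → Bool) (nxt : G → Bool → G ⊕ Bool) (b : Bool) (n : ℕ) :
    (step T nxt)^[n] (Sum.inr b) = Sum.inr b := by
  induction n with
  | zero => rfl
  | succ n ih => rw [Function.iterate_succ_apply]; exact ih

theorem accepts_inr (T : G → Bool) (nxt : G → Bool → G ⊕ Bool) (b : Bool) :
    Accepts T nxt (Sum.inr b) ↔ b = true := by
  constructor
  · rintro ⟨n, hn⟩
    rw [step_inr] at hn
    exact Sum.inr.inj hn
  · rintro rfl
    exact ⟨0, rfl⟩

theorem accepts_inl (T : G → Bool) (nxt : G → Bool → G ⊕ Bool) (g : G) :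
    Accepts T nxt (Sum.inl g) ↔ Accepts T nxt (nxt g (T g)) := by
  constructor
  · rintro ⟨n, hn⟩
    cases n with
    | zero => simp at hn
    | succ n =>
      rw [Function.iterate_succ_apply] at hn
      exact ⟨n, hn⟩
  · rintro ⟨n, hn⟩
    refine ⟨n + 1, ?_⟩
    rw [Function.iterate_succ_apply]
    exact hn

section contract
variable (A : Finset G) (c : G → Bool) (nxt : G → Bool → G ⊕ Bool)

/-- Live states and answers. -/
def Stop : G ⊕ Bool → Prop
  | Sum.inl g => g ∈ A
  | Sum.inr _ => True

open Classical in
/-- A step at a state which is not live. -/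
noncomputable def cs (q : G ⊕ Bool) : G ⊕ Bool := if Stop A q then q else step c nxt q

theorem cs_stop {q : G ⊕ Bool} (h : Stop A q) (n : ℕ) : (cs A c nxt)^[n] q = q := by
  induction n with
  | zero => rfl
  | succ n ih =>
    rw [Function.iterate_succ_apply]
    have : cs A c nxt q = q := by
      unfold cs
      rw [if_pos h]
    rw [this]
    exact ih

open Classical in
/-- The first live state or answer. -/
noncomputable def lim (q : G ⊕ Bool) : G ⊕ Bool :=
  if h : ∃ n, Stop A ((cs A c nxt)^[n] q) then (cs A c nxt)^[h.choose] q else Sum.inr false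

theorem lim_stop (q : G ⊕ Bool) : Stop A (lim A c nxt q) := by
  unfold lim
  split_ifs with h
  · exact h.choose_spec
  · exact trivial

theorem lim_eq {q : G ⊕ Bool} {n : ℕ} (h : Stop A ((cs A c nxt)^[n] q)) :
    lim A c nxt q = (cs A c nxt)^[n] q := by
  have hex : ∃ n, Stop A ((cs A c nxt)^[n] q) := ⟨n, h⟩
  unfold lim
  rw [dif_pos hex]
  obtain ⟨m, hm⟩ : ∃ m, m = hex.choose := ⟨_, rfl⟩
  have hs : Stop A ((cs A c nxt)^[m] q) := by rw [hm]; exact hex.choose_spec
  rw [← hm]
  rcases le_total n m with hnm | hnm
  · obtain ⟨d, rfl⟩ : ∃ d, m = d + n := ⟨m - n, by omega⟩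
    rw [Function.iterate_add_apply, cs_stop A c nxt h]
  · obtain ⟨d, rfl⟩ : ∃ d, n = d + m := ⟨n - m, by omega⟩
    rw [Function.iterate_add_apply, cs_stop A c nxt hs]

variable {A c nxt}

theorem step_eq_cs {T : G → Bool} (hT : ∀ g, g ∉ A → T g = c g) {q : G ⊕ Bool}
    (h : ¬ Stop A q) : step T nxt q = cs A c nxt q := by
  unfold cs
  rw [if_neg h]
  rcases q with g | b
  · have : g ∉ A := h
    simp only [step, hT g this]
  · exact absurd trivial h

theorem accepts_lim {T : G → Bool} (hT : ∀ g, g ∉ A → T g = c g) (n : ℕ) :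
    ∀ q : G ⊕ Bool, (step T nxt)^[n] q = Sum.inr true →
      ∃ m, m ≤ n ∧ (step T nxt)^[m] (lim A c nxt q) = Sum.inr true := by
  induction n with
  | zero =>
    intro q hq
    have hq' : q = Sum.inr true := hq
    subst hq'
    have : Stop A ((cs A c nxt)^[0] (Sum.inr true)) := trivial
    rw [lim_eq A c nxt this]
    exact ⟨0, le_rfl, rfl⟩
  | succ n ih =>
    intro q hq
    by_cases hs : Stop A q
    · have : Stop A ((cs A c nxt)^[0] q) := hs
      rw [lim_eq A c nxt this]
      exact ⟨n + 1, le_rfl, hq⟩
    · rw [Function.iterate_succ_apply, step_eq_cs hT hs] at hq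
      obtain ⟨m, hm, hm'⟩ := ih _ hq
      refine ⟨m, by omega, ?_⟩
      have hl : lim A c nxt q = lim A c nxt (cs A c nxt q) := by
        by_cases hex : ∃ n, Stop A ((cs A c nxt)^[n] (cs A c nxt q))
        · obtain ⟨j, hj⟩ := hex
          rw [lim_eq A c nxt hj]
          have : Stop A ((cs A c nxt)^[j + 1] q) := by
            rw [Function.iterate_succ_apply]
            exact hj
          rw [lim_eq A c nxt this, Function.iterate_succ_apply]
        · have hex' : ¬ ∃ n, Stop A ((cs A c nxt)^[n] q) := by
            rintro ⟨j, hj⟩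
            cases j with
            | zero => exact hs hj
            | succ j =>
              rw [Function.iterate_succ_apply] at hj
              exact hex ⟨j, hj⟩
          unfold lim
          rw [dif_neg hex, dif_neg hex']
      rw [hl]
      exact hm'

theorem accepts_of_cs {T : G → Bool} (hT : ∀ g, g ∉ A → T g = c g) (n : ℕ) :
    ∀ q : G ⊕ Bool, Accepts T nxt ((cs A c nxt)^[n] q) → Accepts T nxt q := by
  induction n with
  | zero => intro q h; exact h
  | succ n ih =>
    intro q h
    rw [Function.iterate_succ_apply] at h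
    have h1 := ih _ h
    by_cases hs : Stop A q
    · have : cs A c nxt q = q := by
        unfold cs
        rw [if_pos hs]
      rwa [this] at h1
    · rw [← step_eq_cs hT hs] at h1
      obtain ⟨m, hm⟩ := h1
      exact ⟨m + 1, by rw [Function.iterate_succ_apply]; exact hm⟩

theorem accepts_of_lim {T : G → Bool} (hT : ∀ g, g ∉ A → T g = c g) (q : G ⊕ Bool)
    (h : Accepts T nxt (lim A c nxt q)) : Accepts T nxt q := by
  by_cases hex : ∃ n, Stop A ((cs A c nxt)^[n] q)
  · obtain ⟨n, hn⟩ := hex
    rw [lim_eq A c nxt hn] at h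
    exact accepts_of_cs hT n q h
  · unfold lim at h
    rw [dif_neg hex, accepts_inr] at h
    simp at h

end contract

/-- The bits read by the small machine. -/
def small {K : ℕ} (f : Fin K → Option G) (T : G → Bool) (a : Fin K) : Bool :=
  match f a with
  | some g => T g
  | none => false

/-- **Contraction.** If all but `K` of the states always read the same bit, the machine can be
replaced by one with `K` states. -/
theorem contract [DecidableEq G] (nxt : G → Bool → G ⊕ Bool) (start : G ⊕ Bool) (c : G → Bool)
    (A : Finset G) {K : ℕ} (hA : A.card ≤ K) :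
    ∃ (f : Fin K → Option G) (nx : Fin K → Bool → Fin K ⊕ Bool) (st : Fin K ⊕ Bool),
      (∀ a g, f a = some g → g ∈ A) ∧ ∀ T : G → Bool, (∀ g, g ∉ A → T g = c g) →
        (Accepts T nxt start ↔ Accepts (small f T) nx st) := by
  classical
  obtain ⟨e⟩ : Nonempty (A ↪ Fin K) := by
    refine Function.Embedding.nonempty_of_card_le ?_
    rw [Fintype.card_coe, Fintype.card_fin]
    exact hA
  obtain ⟨f, hf⟩ : ∃ f : Fin K → Option G, ∀ a, f a =
    if h : ∃ g : A, e g = a then some (h.choose : G) else none := ⟨_, fun _ => rfl⟩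
  have hfe : ∀ g : A, f (e g) = some (g : G) := by
    intro g
    have h : ∃ g' : A, e g' = e g := ⟨g, rfl⟩
    rw [hf, dif_pos h, e.injective h.choose_spec]
  obtain ⟨φ, hφ1, hφ2⟩ : ∃ φ : G ⊕ Bool → Fin K ⊕ Bool,
      (∀ g (h : g ∈ A), φ (Sum.inl g) = Sum.inl (e ⟨g, h⟩)) ∧
      ∀ b, φ (Sum.inr b) = Sum.inr b := by
    refine ⟨Sum.elim (fun g => if h : g ∈ A then Sum.inl (e ⟨g, h⟩) else Sum.inr false)
      (fun b => Sum.inr b), fun g h => ?_, fun b => rfl⟩
    simp [h]
  obtain ⟨nx, hnx⟩ : ∃ nx : Fin K → Bool → Fin K ⊕ Bool, ∀ a b, nx a b = match f a with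
    | some g => φ (lim A c nxt (nxt g b))
    | none => Sum.inr false := ⟨_, fun _ _ => rfl⟩
  have hnxe : ∀ (g : A) b, nx (e g) b = φ (lim A c nxt (nxt g b)) := by
    intro g b
    rw [hnx, hfe]
  refine ⟨f, nx, φ (lim A c nxt start), ?_, ?_⟩
  · intro a g hg
    rw [hf] at hg
    split_ifs at hg with h
    rw [← Option.some.inj hg]
    exact h.choose.2
  · intro T hT
    have hsm : ∀ g : A, small f T (e g) = T g := by
      intro g
      unfold small
      rw [hfe]
    -- from the machine to the small machine
    have h1 : ∀ n : ℕ, ∀ q : G ⊕ Bool, Stop A q → (step T nxt)^[n] q = Sum.inr true →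
        Accepts (small f T) nx (φ q) := by
      intro n
      induction n using Nat.strong_induction_on with
      | _ n ih =>
        intro q hq h
        rcases q with g | b
        · have hg : g ∈ A := hq
          rw [hφ1 g hg, accepts_inl, hnxe, hsm]
          cases n with
          | zero => simp at h
          | succ n =>
            rw [Function.iterate_succ_apply] at h
            obtain ⟨m, hm, hm'⟩ := accepts_lim hT n _ h
            exact ih m (by omega) _ (lim_stop A c nxt _) hm'
        · rw [hφ2, accepts_inr]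
          rw [step_inr] at h
          exact Sum.inr.inj h
    have h2 : ∀ n : ℕ, ∀ q : G ⊕ Bool, Stop A q →
        (step (small f T) nx)^[n] (φ q) = Sum.inr true → Accepts T nxt q := by
      intro n
      induction n with
      | zero =>
        intro q hq h
        rcases q with g | b
        · have hg : g ∈ A := hq
          rw [hφ1 g hg] at h
          simp at h
        · rw [hφ2] at h
          exact ⟨0, by simpa using h⟩
      | succ n ih =>
        intro q hq h
        rcases q with g | b
        · have hg : g ∈ A := hq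
          rw [hφ1 g hg, Function.iterate_succ_apply] at h
          have e1 : step (small f T) nx (Sum.inl (e ⟨g, hg⟩)) =
              φ (lim A c nxt (nxt g (T g))) := by
            show nx (e ⟨g, hg⟩) (small f T (e ⟨g, hg⟩)) = _
            rw [hnxe, hsm]
          rw [e1] at h
          rw [accepts_inl]
          exact accepts_of_lim hT _ (ih _ (lim_stop A c nxt _) h)
        · rw [hφ2, step_inr] at h
          exact ⟨0, by simpa using h⟩
    constructor
    · rintro ⟨n, hn⟩
      obtain ⟨m, hm, hm'⟩ := accepts_lim hT n _ hn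
      exact h1 m _ (lim_stop A c nxt _) hm'
    · rintro ⟨n, hn⟩
      exact accepts_of_lim hT _ (h2 n _ (lim_stop A c nxt _) hn)

end Pool.Agent.H1.BP
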