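import Pool.Agent.H1.HL.Net
import Pool.Agent.H1.BP.Contract

/-!
# Machines with threshold tests do not distinguish random from planted samples
-/

set_option autoImplicit false
set_option linter.unusedSectionVars false

namespace Pool.Agent.H1.BP

open Finset Pool.Agent.H1.HL

variable {N : ℕ} {ι : Type*} [Fintype ι] [DecidableEq ι]

/-- A test: a threshold of a linear form in all bits, or any predicate of one item. -/
inductive Test (N : ℕ) (ι : Type*)
  | lin (w : Fin N → ι → ℝ) (τ : ℝ) : Test N ι
  | one (i : Fin N) (ψ : (ι → Bool) → Bool) : Test N ι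

/-- The result of a test. -/
noncomputable def Test.val : Test N ι → (Fin N → ι → Bool) → Bool
  | Test.lin w τ, z => decide (τ < form w z)
  | Test.one i ψ, z => ψ (z i)

open Classical in
/-- The number of items that the test reads. -/
noncomputable def Test.size : Test N ι → ℕ
  | Test.lin w _ => (univ.filter fun i => ∃ j, w i j ≠ 0).card
  | Test.one _ _ => 1

/-- The test depends on the item `t`. -/
def Act (P : Test N ι) (t : Fin N) (z : Fin N → ι → Bool) : Prop :=
  ∃ u u', P.val (Function.update z t u) = true ∧ P.val (Function.update z t u') = false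

/-- The real function of one item whose thresholds are the restrictions of the test. -/
noncomputable def Test.fn (P : Test N ι) (t : Fin N) (u : ι → Bool) : ℝ :=
  match P with
  | Test.lin w _ => ∑ j, (if u j then w t j else 0)
  | Test.one _ ψ => if ψ u then 1 else 0

theorem restrict_fn (P : Test N ι) (t : Fin N) (z : Fin N → ι → Bool) (h : Act P t z) :
    ∃ σ : ℝ, ∀ u, P.val (Function.update z t u) = decide (σ < P.fn t u) := by
  rcases P with ⟨w, τ⟩ | ⟨i, ψ⟩
  · refine ⟨τ - ∑ i ∈ univ.erase t, ∑ j, (if z i j then w i j else 0), fun u => ?_⟩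
    simp only [Test.val, Test.fn]
    rw [form_update]
    have : (τ < ∑ j, (if u j then w t j else 0) +
        ∑ i ∈ univ.erase t, ∑ j, (if z i j then w i j else 0)) ↔
        (τ - ∑ i ∈ univ.erase t, ∑ j, (if z i j then w i j else 0) <
          ∑ j, (if u j then w t j else 0)) := by
      constructor <;> intro h <;> linarith
    exact decide_eq_decide.mpr this
  · have hit : i = t := by
      by_contra hne
      obtain ⟨u, u', h1, h2⟩ := h
      simp only [Test.val] at h1 h2
      rw [Function.update_of_ne hne] at h1 h2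
      rw [h1] at h2
      exact Bool.noConfusion h2
    subst hit
    refine ⟨0, fun u => ?_⟩
    simp only [Test.val, Test.fn, Function.update_self]
    by_cases hψ : ψ u = true
    · simp [hψ]
    · simp [hψ]

theorem restrict_const (P : Test N ι) (t : Fin N) (z : Fin N → ι → Bool) (h : ¬ Act P t z)
    (u : ι → Bool) : P.val (Function.update z t u) =
      P.val (Function.update z t fun _ => false) := by
  unfold Act at h
  push Not at h
  cases h1 : P.val (Function.update z t u)
  · cases h2 : P.val (Function.update z t fun _ => false)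
    · rfl
    · exact absurd h1 (h _ _ h2)
  · have := h _ (fun _ => false) h1
    cases h2 : P.val (Function.update z t fun _ => false)
    · exact absurd h2 this
    · rfl

theorem sum_act [Nonempty ι] (P : Test N ι) (B : Fin N → Finset (Fin N → ι → Bool))
    (hB : ∀ t, ∀ z ∈ B t, Act P t z) :
    ∑ t, ((B t).card : ℝ) ≤
      (Fintype.card ι + 1) * (2 * √P.size) * Fintype.card (Fin N → ι → Bool) := by
  classical
  rcases P with ⟨w, τ⟩ | ⟨i, ψ⟩
  · refine (sum_active w τ (univ.filter fun i => ∃ j, w i j ≠ 0) (fun i hi j => ?_) B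
      fun t z hz => ?_).trans (le_of_eq ?_)
    · rw [Finset.mem_filter, not_and] at hi
      have := hi (Finset.mem_univ _)
      push Not at this
      exact this j
    · obtain ⟨u, u', h1, h2⟩ := hB t z hz
      refine ⟨u, u', ?_, ?_⟩
      · simpa [Test.val] using h1
      · simpa [Test.val] using h2
    · rfl
  · have hne : ∀ t, t ≠ i → B t = ∅ := by
      intro t ht
      rw [Finset.eq_empty_iff_forall_notMem]
      intro z hz
      obtain ⟨u, u', h1, h2⟩ := hB t z hz
      simp only [Test.val] at h1 h2
      rw [Function.update_of_ne ht.symm] at h1 h2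
      rw [h1] at h2
      exact Bool.noConfusion h2
    rw [Finset.sum_eq_single i (fun t _ ht => by rw [hne t ht]; simp)
      (fun h => absurd (Finset.mem_univ i) h)]
    have h1 : ((B i).card : ℝ) ≤ Fintype.card (Fin N → ι → Bool) := by
      exact_mod_cast Finset.card_le_univ _
    have h2 : (0 : ℝ) ≤ Fintype.card (Fin N → ι → Bool) := Nat.cast_nonneg _
    have h3 : (0 : ℝ) ≤ Fintype.card ι := Nat.cast_nonneg _
    simp only [Test.size, Nat.cast_one, Real.sqrt_one, mul_one]
    nlinarith

theorem sum_bad' [Nonempty ι] {G : Type*} [Fintype G] (P : G → Test N ι) (K : ℕ)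
    (Bad : Fin N → Finset (Fin N → ι → Bool))
    (hBad : ∀ t, ∀ z ∈ Bad t, ∃ A : Finset G, K < A.card ∧ ∀ g ∈ A, Act (P g) t z) :
    ∑ t, ((Bad t).card : ℝ) ≤ (Fintype.card ι + 1) * (2 * ∑ g, √(P g).size) / (K + 1) *
      Fintype.card (Fin N → ι → Bool) := by
  classical
  have hK : (0 : ℝ) < (K : ℝ) + 1 := by positivity
  have h1 : (∑ t, ((Bad t).card : ℝ)) * ((K : ℝ) + 1) ≤
      (Fintype.card ι + 1) * (2 * ∑ g, √(P g).size) * Fintype.card (Fin N → ι → Bool) := by
    rw [mul_comm, Finset.mul_sum]
    calc ∑ t, ((K : ℝ) + 1) * ((Bad t).card : ℝ)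
        ≤ ∑ t, ∑ g, ((univ.filter fun z => Act (P g) t z).card : ℝ) := by
          refine Finset.sum_le_sum fun t _ => ?_
          refine markov_card (fun g z => Act (P g) t z) K (Bad t) fun z hz => ?_
          obtain ⟨A, hA, hA'⟩ := hBad t z hz
          refine lt_of_lt_of_le hA (Finset.card_le_card fun g hg => ?_)
          rw [Finset.mem_filter]
          exact ⟨Finset.mem_univ _, hA' g hg⟩
      _ = ∑ g, ∑ t, ((univ.filter fun z => Act (P g) t z).card : ℝ) :=
          Finset.sum_comm
      _ ≤ ∑ g, (Fintype.card ι + 1) * (2 * √(P g).size) *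
            Fintype.card (Fin N → ι → Bool) := by
          refine Finset.sum_le_sum fun g _ => ?_
          exact sum_act (P g) _ fun t z hz => (Finset.mem_filter.mp hz).2
      _ = _ := by
          rw [← Finset.sum_mul, ← Finset.mul_sum, ← Finset.mul_sum]
  rw [div_mul_eq_mul_div, le_div_iff₀ hK]
  exact h1

open Classical in
/-- The answer of a machine with `G` states. -/
noncomputable def machAns {G : Type*} (P : G → Test N ι) (nxt : G → Bool → G ⊕ Bool)
    (start : G ⊕ Bool) (z : Fin N → ι → Bool) : Bool :=
  decide (Accepts (fun g => (P g).val z) nxt start)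

open Classical in
/-- The function of one item given by the code of a small machine. -/
noncomputable def codeAns {G Z : Type*} [Fintype Z] (y : G → Z → ℝ) {K : ℕ}
    (x : (Fin K → Option G) × (Fin K → Fin (Fintype.card Z + 1)) ×
      (Fin K → Bool → Fin K ⊕ Bool) × (Fin K ⊕ Bool)) (u : Z) : Bool :=
  decide (Accepts (fun a => match x.1 a with
    | some g => thr (y g) (x.2.1 a) u
    | none => false) x.2.2.1 x.2.2.2)

theorem mach_distinguish [Nonempty ι] (hN : 1 ≤ N) {G : Type*} [Fintype G]
    (P : G → Test N ι) (nxt : G → Bool → G ⊕ Bool) (start : G ⊕ Bool)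
    (π : (ι → Bool) ≃ (ι → Bool)) {ε : ℝ} (hε : 0 ≤ ε) (hε1 : ε ≤ 1 / 2) (K : ℕ) :
    ∑ t, ∑ t' ∈ univ.erase t, ∑ z : Fin N → ι → Bool,
        (if machAns P nxt start (Function.update z t (π (z t'))) then (1 : ℝ) else 0) ≤
      (N - 1) * (N * (∑ z : Fin N → ι → Bool, (if machAns P nxt start z then (1 : ℝ) else 0)) +
        (Fintype.card ι + 1) * (2 * ∑ g, √(P g).size) / (K + 1) *
          Fintype.card (Fin N → ι → Bool) +
        N * (ε + ((Fintype.card G + 1) ^ K * ((2 ^ Fintype.card ι + 1) ^ K *
          (((K + 2) ^ 2) ^ K * (K + 2)))) *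
          Real.exp (-(ε ^ 2 * (N - 1)))) * Fintype.card (Fin N → ι → Bool)) := by
  classical
  have hN1 : (0 : ℝ) ≤ N - 1 := by
    have : ((1 : ℕ) : ℝ) ≤ N := by exact_mod_cast hN
    push_cast at this
    linarith
  obtain ⟨Bad, hBad⟩ : ∃ Bad : Fin N → Finset (Fin N → ι → Bool), ∀ t, Bad t =
    univ.filter fun z => K < (univ.filter fun g => Act (P g) t z).card :=
    ⟨_, fun _ => rfl⟩
  obtain ⟨𝒢, h𝒢⟩ : ∃ 𝒢 : Fin N → Finset ((ι → Bool) → Bool), ∀ t, 𝒢 t =
    univ.image (codeAns (fun g u => (P g).fn t u) (K := K)) :=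
    ⟨_, fun _ => rfl⟩
  have hcard : ∀ t, ((𝒢 t).card : ℝ) ≤
      (Fintype.card G + 1) ^ K * ((2 ^ Fintype.card ι + 1) ^ K *
          (((K + 2) ^ 2) ^ K * (K + 2))) := by
    intro t
    have h1 : (𝒢 t).card ≤ (Fintype.card G + 1) ^ K * ((2 ^ Fintype.card ι + 1) ^ K *
          (((K + 2) ^ 2) ^ K * (K + 2))) := by
      rw [h𝒢]
      refine Finset.card_image_le.trans (le_of_eq ?_)
      rw [Finset.card_univ, Fintype.card_prod, Fintype.card_prod, Fintype.card_prod,
        Fintype.card_fun, Fintype.card_fun, Fintype.card_fun, Fintype.card_fun,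
        Fintype.card_option, Fintype.card_fin, Fintype.card_fin,
        Fintype.card_fun, Fintype.card_sum, Fintype.card_bool, Fintype.card_fin]
    exact_mod_cast h1
  have hmem : ∀ t z, z ∉ Bad t →
      (fun u => machAns P nxt start (Function.update z t u)) ∈ 𝒢 t := by
    intro t z hz
    rw [hBad, Finset.mem_filter, not_and, not_lt] at hz
    have hA := hz (Finset.mem_univ _)
    obtain ⟨A, hAdef⟩ : ∃ A, A = univ.filter fun g => Act (P g) t z := ⟨_, rfl⟩
    rw [← hAdef] at hA
    obtain ⟨f, nx, st, hf, hc⟩ := contract nxt start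
      (fun g => (P g).val (Function.update z t fun _ => false)) A hA
    -- thresholds
    have hσ : ∀ g : G, ∃ n : Fin (Fintype.card (ι → Bool) + 1), g ∈ A → ∀ u,
        thr ((P g).fn t) n u = (P g).val (Function.update z t u) := by
      intro g
      by_cases hg : g ∈ A
      · rw [hAdef, Finset.mem_filter] at hg
        obtain ⟨σ, hσ⟩ := restrict_fn (P g) t z hg.2
        obtain ⟨n, hn⟩ := exists_thr ((P g).fn t) σ
        exact ⟨n, fun _ u => by rw [hn, hσ]⟩
      · exact ⟨0, fun h => absurd h hg⟩
    choose n hn using hσ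
    rw [h𝒢, Finset.mem_image]
    refine ⟨(f, (fun a => match f a with
      | some g => n g
      | none => 0), nx, st), Finset.mem_univ _, ?_⟩
    funext u
    unfold codeAns machAns
    have h1 := hc (fun g => (P g).val (Function.update z t u)) (fun g hg => by
      refine restrict_const (P g) t z ?_ u
      intro hact
      apply hg
      rw [hAdef, Finset.mem_filter]
      exact ⟨Finset.mem_univ _, hact⟩)
    have h2 : (fun a => match f a with
        | some g => thr ((P g).fn t) (match f a with
          | some g => n g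
          | none => 0) u
        | none => false) = small f (fun g => (P g).val (Function.update z t u)) := by
      funext a
      unfold small
      cases hfa : f a with
      | none => rfl
      | some g => exact hn g (hf a g hfa) u
    simp only [h1]
    rw [h2]
  have h := distinguish hN (machAns P nxt start) π hε hε1 𝒢 _ hcard Bad hmem
  refine h.trans (mul_le_mul_of_nonneg_left ?_ hN1)
  have hbad := sum_bad' P K Bad fun t z hz => by
    rw [hBad, Finset.mem_filter] at hz
    exact ⟨_, hz.2, fun g hg => (Finset.mem_filter.mp hg).2⟩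
  linarith

end Pool.Agent.H1.BP
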