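import Pool.Agent.H1.HL.Param

/-!
# The choice of the parameters for machines
-/

set_option autoImplicit false
set_option linter.unusedSectionVars false

namespace Pool.Agent.H1.BP

open Finset Pool.Agent.H1.LT Pool.Agent.H1.HL

/-- The number of codes is small. -/
theorem codes_small {m N R k K₀ K : ℕ} (h : Pars m N R k K₀) (hK' : K = N / (2048 * k)) {C : ℝ}
    (hC : C ≤ 2 ^ ((6 * k + 1) * (K + 1))) :
    C * Real.exp (-((1 / 16) ^ 2 * (N - 1))) ≤ 1 / 32 := by
  have hk := h.hk
  have hkR : (21 : ℝ) ≤ k := by exact_mod_cast hk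
  have hbig : 7168 * (k : ℝ) + 7189 ≤ N := by exact_mod_cast h.hbig
  have hK : (K : ℝ) + 1 ≤ N / (2048 * k) + 1 := by
    rw [hK']
    have := Nat.cast_div_le (α := ℝ) (m := N) (n := 2048 * k)
    push_cast at this ⊢
    linarith
  have hexp : 7 / 10 * (((6 * k + 1) * (K + 1) : ℕ) : ℝ) + -((1 / 16) ^ 2 * ((N : ℝ) - 1)) ≤
      -(7 / 10 * (5 : ℕ)) := by
    push_cast
    have h1 : (6 * (k : ℝ) + 1) * (K + 1) ≤ 7 * k * (N / (2048 * k) + 1) := by
      refine mul_le_mul (by linarith) hK (by positivity) (by positivity)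
    have h2 : 7 * (k : ℝ) * (N / (2048 * k) + 1) = 7 * N / 2048 + 7 * k := by
      field_simp
    rw [h2] at h1
    linarith
  calc C * Real.exp (-((1 / 16) ^ 2 * (N - 1)))
      ≤ Real.exp (7 / 10 * (((6 * k + 1) * (K + 1) : ℕ) : ℝ)) *
        Real.exp (-((1 / 16) ^ 2 * (N - 1))) :=
        mul_le_mul_of_nonneg_right (hC.trans (two_pow_le_exp _)) (Real.exp_pos _).le
    _ = Real.exp (7 / 10 * (((6 * k + 1) * (K + 1) : ℕ) : ℝ) +
          -((1 / 16) ^ 2 * ((N : ℝ) - 1))) := by rw [Real.exp_add]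
    _ ≤ Real.exp (-(7 / 10 * (5 : ℕ))) := Real.exp_le_exp.mpr hexp
    _ ≤ 1 / 32 := by
        rw [Real.exp_neg, inv_eq_one_div]
        refine one_div_le_one_div_of_le (by norm_num) ?_
        have := two_pow_le_exp 5
        norm_num at this ⊢
        linarith

/-- **The hard family.** -/
theorem conclude (m : ℕ) {N R k K₀ K : ℕ} (hP : Pars m N R k K₀)
    (hK' : K = N / (2048 * k)) :
    ∃ (ι : Type) (_ : Fintype ι) (_ : Nonempty ι) (a b : ι → Fin m → ℕ),
      (∀ x, Simple (4 * m) (a x) (b x)) ∧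
      ∀ (ans : (Fin m → ℕ) → (Fin m → ℕ) → Bool) (cost : ℝ), 0 ≤ cost →
        (1200000 * k ^ 2 * cost / m ^ 2 ≤ 2 / 5 → ∀ hk : 0 < k,
          ∑ t, ∑ t' ∈ univ.erase t, ∑ z : Fin N → Bits k → Bool,
          (if ans (ea m R fun i => pval (Function.update z t (flipE hk (z t')) i))
            (eb m R fun i => qval (Function.update z t (flipE hk (z t')) i)) then (1 : ℝ) else 0) ≤
          (N - 1) * (N * (∑ z : Fin N → Bits k → Bool,
          (if ans (ea m R fun i => pval (z i)) (eb m R fun i => qval (z i)) then (1 : ℝ) else 0)) +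
          (2 * k + 1) * (2 * cost) / (K + 1) * Fintype.card (Fin N → Bits k → Bool) +
          N * (1 / 16 + 1 / 32) * Fintype.card (Fin N → Bits k → Bool))) →
        (2 / 5 - 1200000 * k ^ 2 * cost / m ^ 2) * Fintype.card ι ≤
          ({y | ¬ (ans (a y) (b y) = true ↔ HasTriangle (a y) (b y))} : Set ι).ncard := by
  have hk := hP.hk
  have hk0 : 0 < k := by omega
  have hbig := hP.hbig
  obtain ⟨ι, i1, i2, a, b, hs, hf⟩ := errors_lower hk0 (by omega : 2 ≤ N) hP.h8.le hP.hR hP.h1 hP.h2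
  refine ⟨ι, i1, i2, a, b, hs, fun ans cost hcost hyp => ?_⟩
  by_cases hc : 1200000 * k ^ 2 * cost / m ^ 2 ≤ 2 / 5
  · have hNpos : (0 : ℝ) < N := by
      have : 0 < N := by omega
      exact_mod_cast this
    have hK0 : (0 : ℝ) < (K : ℝ) + 1 := by positivity
    have h1 := hf ans ((2 * k + 1) * (2 * cost) / ((K + 1) * N)) (by positivity) (by
      refine (hyp hc hk0).trans (le_of_eq ?_)
      congr 1
      have : (N : ℝ) * ((2 * k + 1) * (2 * cost) / ((K + 1) * N)) =
          (2 * k + 1) * (2 * cost) / (K + 1) := by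
        field_simp
      rw [mul_add (N : ℝ) (3 / 32), this]
      ring)
    refine le_trans (mul_le_mul_of_nonneg_right ?_ (Nat.cast_nonneg _)) h1
    have hkR : (21 : ℝ) ≤ k := by exact_mod_cast hk
    have hKl : (N : ℝ) / (2048 * k) ≤ K + 1 := by
      rw [hK']
      have h := Nat.lt_div_mul_add (a := N) (b := 2048 * k) (by omega)
      have h' : (N : ℝ) < ((N / (2048 * k) : ℕ) : ℝ) * (2048 * k) + 2048 * k := by
        exact_mod_cast h
      rw [div_le_iff₀ (by positivity)]
      linarith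
    have hmN : (m : ℝ) ≤ 16 * N := by exact_mod_cast hP.hm
    have hmpos : (0 : ℝ) < m := by
      have : 0 < m := by
        have := hP.h1
        omega
      exact_mod_cast this
    have h2 : (2 * (k : ℝ) + 1) * (2 * cost) / ((K + 1) * N) / 2 ≤
        1200000 * k ^ 2 * cost / m ^ 2 := by
      have e1 : (2 * (k : ℝ) + 1) * (2 * cost) / ((K + 1) * N) / 2 =
          (2 * k + 1) * cost / ((K + 1) * N) := by ring
      rw [e1, div_le_div_iff₀ (by positivity) (by positivity)]
      have e2 : (m : ℝ) ^ 2 ≤ 256 * N ^ 2 := by nlinarith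
      have e3 : (N : ℝ) ≤ (K + 1) * (2048 * k) := by
        rwa [div_le_iff₀ (by positivity)] at hKl
      calc (2 * (k : ℝ) + 1) * cost * m ^ 2 ≤ (2 * (k : ℝ) + 1) * cost * (256 * N ^ 2) :=
            mul_le_mul_of_nonneg_left e2 (by positivity)
        _ = (2 * (k : ℝ) + 1) * cost * 256 * N * N := by ring
        _ ≤ (2 * (k : ℝ) + 1) * cost * 256 * N * ((K + 1) * (2048 * k)) :=
            mul_le_mul_of_nonneg_left e3 (by positivity)
        _ = (524288 * (2 * (k : ℝ) + 1) * k) * (cost * ((K + 1) * N)) := by ring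
        _ ≤ (1200000 * k ^ 2) * (cost * ((K + 1) * N)) := by
            refine mul_le_mul_of_nonneg_right ?_ (by positivity)
            nlinarith
        _ = 1200000 * k ^ 2 * cost * ((K + 1) * N) := by ring
    linarith
  · push Not at hc
    refine (mul_nonpos_of_nonpos_of_nonneg (by linarith) (Nat.cast_nonneg _)).trans
      (Nat.cast_nonneg _)

end Pool.Agent.H1.BP
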